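import Mathlib
import Pool.Agent.H97R2.BP.Defs
import Pool.Agent.H97R2.BP.Defs2

/-!
Pointwise estimate for the decomposition in finite dimension.
-/

open scoped ComplexOrder InnerProductSpace ComplexConjugate TensorProduct
open Finset H759R2.Kad H710R2.DP

noncomputable section

namespace H97R2.BP

namespace ZZ793

variable {E : Type} [NormedAddCommGroup E] [InnerProductSpace ℂ E] [FiniteDimensional ℂ E]

/-- trace of `G b b^*` in an eigenbasis of `G` -/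
theorem tr_left {n : ℕ} (e e' : OrthonormalBasis (Fin n) ℂ E) (G : E →L[ℂ] E)
    (hG : (G : E →ₗ[ℂ] E).IsSymmetric) (g : Fin n → ℝ) (hg : ∀ k, G (e k) = (g k : ℂ) • e k)
    (b : E →L[ℂ] E) :
    (LinearMap.trace ℂ E ((G ∘L b ∘L b.adjoint : E →L[ℂ] E) : E →ₗ[ℂ] E)).re =
      ∑ k, ∑ l, g k * ‖⟪e k, b (e' l)⟫_ℂ‖ ^ 2 := by
  rw [LinearMap.trace_eq_sum_inner _ e, Complex.re_sum]
  apply Finset.sum_congr rfl
  intro k _
  have h1 : ⟪e k, (G ∘L b ∘L b.adjoint : E →L[ℂ] E) (e k)⟫_ℂ =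
      (g k : ℂ) * ⟪b.adjoint (e k), b.adjoint (e k)⟫_ℂ := by
    have h2 : ⟪e k, G (b (b.adjoint (e k)))⟫_ℂ = ⟪G (e k), b (b.adjoint (e k))⟫_ℂ :=
      (hG (e k) (b (b.adjoint (e k)))).symm
    show ⟪e k, G (b (b.adjoint (e k)))⟫_ℂ = _
    rw [h2, hg k, inner_smul_left, Complex.conj_ofReal, ContinuousLinearMap.adjoint_inner_left]
  have h1' : ⟪e k, ((G ∘L b ∘L b.adjoint : E →L[ℂ] E) : E →ₗ[ℂ] E) (e k)⟫_ℂ =
      (g k : ℂ) * ⟪b.adjoint (e k), b.adjoint (e k)⟫_ℂ := h1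
  rw [h1', Complex.re_ofReal_mul]
  have h3 : (⟪b.adjoint (e k), b.adjoint (e k)⟫_ℂ).re = ‖b.adjoint (e k)‖ ^ 2 :=
    inner_self_eq_norm_sq (𝕜 := ℂ) _
  rw [h3, ← e'.sum_sq_norm_inner_left, Finset.mul_sum]
  apply Finset.sum_congr rfl
  intro l _
  rw [ContinuousLinearMap.adjoint_inner_left]

/-- trace of `F c^* c` in an eigenbasis of `F` -/
theorem tr_right {n : ℕ} (e e' : OrthonormalBasis (Fin n) ℂ E) (F : E →L[ℂ] E)
    (hF : (F : E →ₗ[ℂ] E).IsSymmetric) (f : Fin n → ℝ) (hf : ∀ l, F (e' l) = (f l : ℂ) • e' l)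
    (c : E →L[ℂ] E) :
    (LinearMap.trace ℂ E ((F ∘L c.adjoint ∘L c : E →L[ℂ] E) : E →ₗ[ℂ] E)).re =
      ∑ k, ∑ l, f l * ‖⟪e k, c (e' l)⟫_ℂ‖ ^ 2 := by
  rw [LinearMap.trace_eq_sum_inner _ e', Complex.re_sum, Finset.sum_comm]
  apply Finset.sum_congr rfl
  intro l _
  have h1 : ⟪e' l, (F ∘L c.adjoint ∘L c : E →L[ℂ] E) (e' l)⟫_ℂ =
      (f l : ℂ) * ⟪c (e' l), c (e' l)⟫_ℂ := by
    have h2 : ⟪e' l, F (c.adjoint (c (e' l)))⟫_ℂ = ⟪F (e' l), c.adjoint (c (e' l))⟫_ℂ :=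
      (hF (e' l) (c.adjoint (c (e' l)))).symm
    show ⟪e' l, F (c.adjoint (c (e' l)))⟫_ℂ = _
    rw [h2, hf l, inner_smul_left, Complex.conj_ofReal, ContinuousLinearMap.adjoint_inner_right]
  have h1' : ⟪e' l, ((F ∘L c.adjoint ∘L c : E →L[ℂ] E) : E →ₗ[ℂ] E) (e' l)⟫_ℂ =
      (f l : ℂ) * ⟪c (e' l), c (e' l)⟫_ℂ := h1
  rw [h1', Complex.re_ofReal_mul]
  have h3 : (⟪c (e' l), c (e' l)⟫_ℂ).re = ‖c (e' l)‖ ^ 2 :=
    inner_self_eq_norm_sq (𝕜 := ℂ) _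
  rw [h3, ← e.sum_sq_norm_inner_right, Finset.mul_sum]

theorem tr_self {n : ℕ} (e : OrthonormalBasis (Fin n) ℂ E) (G : E →L[ℂ] E) (g : Fin n → ℝ)
    (hg : ∀ k, G (e k) = (g k : ℂ) • e k) :
    (LinearMap.trace ℂ E (G : E →ₗ[ℂ] E)).re = ∑ k, g k := by
  rw [LinearMap.trace_eq_sum_inner _ e, Complex.re_sum]
  apply Finset.sum_congr rfl
  intro k _
  have h1 : ⟪e k, (G : E →ₗ[ℂ] E) (e k)⟫_ℂ = (g k : ℂ) := by
    show ⟪e k, G (e k)⟫_ℂ = _
    rw [hg k, inner_smul_right, inner_self_eq_norm_sq_to_K, e.norm_eq_one]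
    simp
  rw [h1, Complex.ofReal_re]

theorem min_sqrt {x y t : ℝ} (hx : 0 ≤ x) (hy : 0 ≤ y) (ht : 0 < t) :
    (if t⁻¹ * x ≤ t * y then t⁻¹ * x else t * y) ≤ √(x * y) := by
  have hxy : x * y = (t⁻¹ * x) * (t * y) := by
    field_simp
  have h1 : 0 ≤ t⁻¹ * x := by positivity
  have h2 : 0 ≤ t * y := by positivity
  split_ifs with h
  · apply Real.le_sqrt_of_sq_le
    rw [hxy, sq]
    exact mul_le_mul_of_nonneg_left h h1
  · apply Real.le_sqrt_of_sq_le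
    rw [hxy, sq]
    exact mul_le_mul_of_nonneg_right (not_le.1 h).le h2

end ZZ793

open ZZ793 in
theorem bp_decpt : Z_decpt := by
  intro E _ _ _ ι _ a ρ t hρ ht hyp G F hG hF htr
  classical
  set n := Module.finrank ℂ E with hn
  set e : OrthonormalBasis (Fin n) ℂ E := hG.isSymmetric.eigenvectorBasis hn.symm with he
  set e' : OrthonormalBasis (Fin n) ℂ E := hF.isSymmetric.eigenvectorBasis hn.symm with he'
  set g : Fin n → ℝ := hG.isSymmetric.eigenvalues hn.symm with hg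
  set f : Fin n → ℝ := hF.isSymmetric.eigenvalues hn.symm with hf
  have hGe : ∀ k, G (e k) = (g k : ℂ) • e k := fun k =>
    hG.isSymmetric.apply_eigenvectorBasis hn.symm k
  have hFe : ∀ k, F (e' k) = (f k : ℂ) • e' k := fun k =>
    hF.isSymmetric.apply_eigenvectorBasis hn.symm k
  have hself : ∀ (u : OrthonormalBasis (Fin n) ℂ E) (k : Fin n), ⟪u k, u k⟫_ℂ = 1 := by
    intro u k
    rw [inner_self_eq_norm_sq_to_K, u.norm_eq_one]
    simp
  have hg0 : ∀ k, 0 ≤ g k := by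
    intro k
    have h1 := hG.re_inner_nonneg_right (e k)
    rw [hGe k, inner_smul_right, hself e k, mul_one] at h1
    exact h1
  have hf0 : ∀ k, 0 ≤ f k := by
    intro k
    have h1 := hF.re_inner_nonneg_right (e' k)
    rw [hFe k, inner_smul_right, hself e' k, mul_one] at h1
    exact h1
  -- the elements `b i`
  set c : ι → Fin n → Fin n → ℂ := fun i k l =>
    if t⁻¹ * g k ≤ t * f l then ⟪e k, a i (e' l)⟫_ℂ else 0 with hc
  set b : ι → (E →L[ℂ] E) := fun i =>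
    LinearMap.toContinuousLinearMap (e'.toBasis.constr ℂ (fun l => ∑ k, c i k l • e k)) with hb
  have hbe : ∀ i l, b i (e' l) = ∑ k, c i k l • e k := by
    intro i l
    have h1 := Module.Basis.constr_basis e'.toBasis ℂ (fun l => ∑ k, c i k l • e k) l
    rw [OrthonormalBasis.coe_toBasis] at h1
    exact h1
  have hbkl : ∀ i k l, ⟪e k, b i (e' l)⟫_ℂ = c i k l := by
    intro i k l
    rw [hbe, e.orthonormal.inner_right_fintype (fun k => c i k l) k]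
  refine ⟨b, ?_⟩
  have hL : ∀ i, (LinearMap.trace ℂ E ((G ∘L b i ∘L (b i).adjoint : E →L[ℂ] E) : E →ₗ[ℂ] E)).re =
      ∑ k, ∑ l, g k * ‖c i k l‖ ^ 2 := by
    intro i
    rw [tr_left e e' G hG.isSymmetric g hGe (b i)]
    simp only [hbkl]
  have hR : ∀ i, (LinearMap.trace ℂ E
      ((F ∘L (a i - b i).adjoint ∘L (a i - b i) : E →L[ℂ] E) : E →ₗ[ℂ] E)).re =
      ∑ k, ∑ l, f l * ‖⟪e k, a i (e' l)⟫_ℂ - c i k l‖ ^ 2 := by
    intro i
    rw [tr_right e e' F hF.isSymmetric f hFe (a i - b i)]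
    apply Finset.sum_congr rfl
    intro k _
    apply Finset.sum_congr rfl
    intro l _
    rw [ContinuousLinearMap.sub_apply, inner_sub_right, hbkl]
  have hmain : t⁻¹ * ∑ i, (LinearMap.trace ℂ E
        ((G ∘L b i ∘L (b i).adjoint : E →L[ℂ] E) : E →ₗ[ℂ] E)).re +
      t * ∑ i, (LinearMap.trace ℂ E ((F ∘L (a i - b i).adjoint ∘L (a i - b i) : E →L[ℂ] E) :
        E →ₗ[ℂ] E)).re ≤ ∑ i, ∑ k, ∑ l, √(g k * f l) * ‖⟪e k, a i (e' l)⟫_ℂ‖ ^ 2 := by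
    simp only [hL, hR, Finset.mul_sum, ← Finset.sum_add_distrib]
    apply Finset.sum_le_sum
    intro i _
    apply Finset.sum_le_sum
    intro k _
    apply Finset.sum_le_sum
    intro l _
    have h1 := min_sqrt (hg0 k) (hf0 l) ht
    have h2 : 0 ≤ ‖⟪e k, a i (e' l)⟫_ℂ‖ ^ 2 := by positivity
    have h3 := mul_le_mul_of_nonneg_right h1 h2
    refine le_trans (le_of_eq ?_) h3
    simp only [hc]
    split_ifs with h
    · simp
      ring
    · simp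
      ring
  refine le_trans hmain ?_
  have hsum : ∑ k, g k + ∑ k, f k = 1 := by
    rw [← tr_self e G g hGe, ← tr_self e' F f hFe]
    exact htr
  have hγ0 : 0 ≤ ∑ k, g k := Finset.sum_nonneg fun k _ => hg0 k
  have hφ0 : 0 ≤ ∑ k, f k := Finset.sum_nonneg fun k _ => hf0 k
  rcases hγ0.eq_or_lt with hγ | hγ
  · have hz : ∀ k, g k = 0 := by
      intro k
      exact (Finset.sum_eq_zero_iff_of_nonneg (fun k _ => hg0 k)).1 hγ.symm k (Finset.mem_univ k)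
    simp only [hz, zero_mul, Real.sqrt_zero, Finset.sum_const_zero]
    exact hρ.le
  rcases hφ0.eq_or_lt with hφ | hφ
  · have hz : ∀ k, f k = 0 := by
      intro k
      exact (Finset.sum_eq_zero_iff_of_nonneg (fun k _ => hf0 k)).1 hφ.symm k (Finset.mem_univ k)
    simp only [hz, mul_zero, Real.sqrt_zero, zero_mul, Finset.sum_const_zero]
    exact hρ.le
  set γ := ∑ k, g k with hγdef
  set φ := ∑ k, f k with hφdef
  have hh := hyp n e e' (fun k => g k / γ) (fun k => f k / φ)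
    (fun k => div_nonneg (hg0 k) hγ.le) (fun k => div_nonneg (hf0 k) hφ.le)
    (by rw [← Finset.sum_div, ← hγdef, div_self hγ.ne'])
    (by rw [← Finset.sum_div, ← hφdef, div_self hφ.ne'])
  have hsq : √(γ * φ) ≤ 1 := by
    rw [Real.sqrt_le_one]
    nlinarith
  have heq : ∑ i, ∑ k, ∑ l, √(g k * f l) * ‖⟪e k, a i (e' l)⟫_ℂ‖ ^ 2 =
      √(γ * φ) * ∑ i, ∑ k, ∑ l, √(g k / γ * (f l / φ)) * ‖⟪e k, a i (e' l)⟫_ℂ‖ ^ 2 := by
    simp only [Finset.mul_sum]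
    apply Finset.sum_congr rfl
    intro i _
    apply Finset.sum_congr rfl
    intro k _
    apply Finset.sum_congr rfl
    intro l _
    rw [← mul_assoc, ← Real.sqrt_mul (by positivity)]
    congr 2
    field_simp
  rw [heq]
  have h0 : 0 ≤ ∑ i, ∑ k, ∑ l, √(g k / γ * (f l / φ)) * ‖⟪e k, a i (e' l)⟫_ℂ‖ ^ 2 := by
    positivity
  calc √(γ * φ) * ∑ i, ∑ k, ∑ l, √(g k / γ * (f l / φ)) * ‖⟪e k, a i (e' l)⟫_ℂ‖ ^ 2
      ≤ 1 * ∑ i, ∑ k, ∑ l, √(g k / γ * (f l / φ)) * ‖⟪e k, a i (e' l)⟫_ℂ‖ ^ 2 :=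
        mul_le_mul_of_nonneg_right hsq h0
    _ ≤ ρ := by rw [one_mul]; exact hh

end H97R2.BP
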